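import Pool.Agent.H958R6.Stmts

set_option autoImplicit false

namespace Pool.Agent.Helper923.KnightVO

open Polynomial Finset Pool.Agent.Helper848.AztecDet H958R6

lemma nd_add (a : ℕ) : ((1 + X : ℚ[X]) ^ a).natDegree ≤ a := by
  refine natDegree_pow_le.trans ?_
  have : (1 + X : ℚ[X]).natDegree ≤ 1 := by compute_degree
  nlinarith

lemma nd_sub (a : ℕ) : ((1 - X : ℚ[X]) ^ a).natDegree ≤ a := by
  refine natDegree_pow_le.trans ?_
  have : (1 - X : ℚ[X]).natDegree ≤ 1 := by compute_degree
  nlinarith

lemma refl_one_add : reflect 1 (1 + X : ℚ[X]) = 1 + X := by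
  have h : (X : ℚ[X]) = X ^ 1 := (pow_one X).symm
  rw [reflect_add, reflect_one]
  have : reflect 1 (X : ℚ[X]) = 1 := by
    conv_lhs => rw [h]
    rw [reflect_monomial]
    simp
  rw [this]; ring

lemma refl_one_sub : reflect 1 (1 - X : ℚ[X]) = -(1 - X) := by
  have h : (X : ℚ[X]) = X ^ 1 := (pow_one X).symm
  rw [reflect_sub, reflect_one]
  have : reflect 1 (X : ℚ[X]) = 1 := by
    conv_lhs => rw [h]
    rw [reflect_monomial]
    simp
  rw [this]; ring

lemma refl_add (a : ℕ) : reflect a ((1 + X : ℚ[X]) ^ a) = (1 + X) ^ a := by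
  induction a with
  | zero => simp
  | succ a ih =>
    rw [pow_succ, reflect_mul _ _ (nd_add a) (by simpa using nd_add 1), ih, refl_one_add]

lemma refl_sub (a : ℕ) : reflect a ((1 - X : ℚ[X]) ^ a) = (-1) ^ a * (1 - X) ^ a := by
  induction a with
  | zero => simp
  | succ a ih =>
    rw [pow_succ, reflect_mul _ _ (nd_sub a) (by simpa using nd_sub 1), ih, refl_one_sub]
    ring

lemma odd_zero (m a b : ℕ) (h : a + b = 2 * m) (hb : b % 2 = 1) :
    ((1 + X : ℚ[X]) ^ a * (1 - X) ^ b).coeff m = 0 := by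
  have h1 : reflect (a + b) ((1 + X : ℚ[X]) ^ a * (1 - X) ^ b) =
      - ((1 + X) ^ a * (1 - X) ^ b) := by
    rw [reflect_mul _ _ (nd_add a) (nd_sub b), refl_add, refl_sub]
    have : (-1 : ℚ[X]) ^ b = -1 := Odd.neg_one_pow (Nat.odd_iff.2 hb)
    rw [this]; ring
  have h2 := congrArg (fun p => coeff p m) h1
  simp only [coeff_reflect, coeff_neg] at h2
  rw [revAt_le (by omega), h, show 2 * m - m = m by omega] at h2
  linarith

lemma key (hSz : TaskSz) (m j : ℕ) (hj : j ≤ m) :
    (-1 : ℚ) ^ (m + j) * (m.choose j : ℚ) / (2 * 4 ^ m) *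
      ((1 + X : ℚ[X]) ^ (2 * j) * (1 - X) ^ (2 * (m - j))).coeff m = 1 / 2 * (c j * c (m - j)) := by
  obtain ⟨i, rfl⟩ : ∃ i, m = i + j := ⟨m - j, by omega⟩
  have h := hSz i j
  have h1 : ((i + j).choose j : ℚ) = ((i + j).choose i : ℚ) := by
    rw [Nat.choose_symm_add]
  rw [show i + j - j = i by omega, h1]
  unfold c
  have h2 : (-1 : ℚ) ^ (i + j + j) = (-1) ^ i := by
    rw [show i + j + j = i + 2 * j by ring, pow_add, pow_mul]; norm_num
  have h3 : (-1 : ℚ) ^ i * (-1) ^ i = 1 := by
    rw [← pow_add, ← two_mul, pow_mul]; norm_num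
  rw [h2]
  have h4 : (-1 : ℚ) ^ i * ((i + j).choose i : ℚ) / (2 * 4 ^ (i + j)) *
      ((1 + X : ℚ[X]) ^ (2 * j) * (1 - X) ^ (2 * i)).coeff (i + j) =
      (-1 : ℚ) ^ i / (2 * 4 ^ (i + j)) * (((1 + X : ℚ[X]) ^ (2 * j) * (1 - X) ^ (2 * i)).coeff (i + j)
        * ((i + j).choose i : ℚ)) := by ring
  rw [h4, h, pow_add]
  have h5 : (4 : ℚ) ^ i ≠ 0 := by positivity
  have h6 : (4 : ℚ) ^ j ≠ 0 := by positivity
  calc _ = ((-1 : ℚ) ^ i * (-1) ^ i) * (((2 * i).choose i : ℚ) * ((2 * j).choose j : ℚ)) /
        (2 * (4 ^ i * 4 ^ j)) := by ring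
    _ = _ := by rw [h3]; field_simp

lemma key1 (hSz : TaskSz) (m j : ℕ) (hj : j ≤ m) :
    -((-1 : ℚ) ^ (m + (j + 1)) * (m.choose (j + 1) : ℚ) / (2 * 4 ^ m) *
      ((1 + X : ℚ[X]) ^ (2 * j) * (1 - X) ^ (2 * (m - j))).coeff m) =
      1 / 2 * ((m - j : ℚ) / (j + 1) * (c j * c (m - j))) := by
  have h := key hSz m j hj
  have h1 : (m.choose (j + 1) : ℚ) * (j + 1) = m.choose j * (m - j) := by
    have := Nat.choose_succ_right_eq m j
    have h2 : ((m - j : ℕ) : ℚ) = (m : ℚ) - j := by push_cast [hj]; ring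
    rw [← h2]
    exact_mod_cast this
  have h3 : ((j : ℚ) + 1) ≠ 0 := by positivity
  have h4 : (m.choose (j + 1) : ℚ) = m.choose j * (m - j) / (j + 1) := by
    rw [eq_div_iff h3]; exact h1
  calc _ = (m - j : ℚ) / (j + 1) * ((-1 : ℚ) ^ (m + j) * (m.choose j : ℚ) / (2 * 4 ^ m) *
      ((1 + X : ℚ[X]) ^ (2 * j) * (1 - X) ^ (2 * (m - j))).coeff m) := by
        rw [h4, ← add_assoc, pow_succ]; ring
    _ = _ := by rw [h]; ring

theorem taskVO : TaskSz → TaskVO := by
  intro hSz m hm
  refine ⟨?_, ?_, ?_, ?_⟩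
  · unfold G
    rw [if_pos (by omega), show m + 2 - 1 - m = 1 by omega, pow_one, neg_one_mul, coeff_neg,
      finsetSum_coeff]
    have hs : ∑ j ∈ (range (m + 1)).filter (fun j => m ≤ 2 * j),
        (m - j : ℚ) / (j + 1) * (c j * c (m - j)) =
        ∑ j ∈ (range m).filter (fun j => m ≤ 2 * j),
        (m - j : ℚ) / (j + 1) * (c j * c (m - j)) := by
      symm
      refine Finset.sum_subset ?_ ?_
      · intro j hj
        simp only [mem_filter, mem_range] at hj ⊢
        omega
      · intro j hj hj'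
        simp only [mem_filter, mem_range] at hj hj'
        have : j = m := by omega
        rw [this]; simp
    rw [hs, Finset.mul_sum, ← Finset.sum_neg_distrib]
    symm
    refine Finset.sum_of_injOn (fun j => 2 * j + 2) ?_ ?_ ?_ ?_
    · intro a _ b _ hab
      simp only at hab; omega
    · intro j hj
      simp only [coe_filter, Set.mem_ofPred_eq, mem_range, coe_Ico, Set.mem_Ico] at hj ⊢
      omega
    · intro k hk hk'
      rw [mem_Ico] at hk
      have hodd : k % 2 = 1 := by
        by_contra hne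
        apply hk'
        refine ⟨k / 2 - 1, ?_, ?_⟩
        · simp only [coe_filter, Set.mem_ofPred_eq, mem_range]
          omega
        · simp only; omega
      rw [coeff_C_mul, odd_zero m _ _ (by omega) (by omega), mul_zero, neg_zero]
    · intro j hj
      simp only [mem_filter, mem_range] at hj
      rw [coeff_C_mul, show 2 * j + 2 + m - (m + 2) = 2 * j by omega,
        show 2 * m + 1 + (m + 2) - 1 - m - (2 * j + 2) = 2 * (m - j) by omega]
      unfold go
      rw [show (2 * j + 2) / 2 = j + 1 by omega, key1 hSz m j (by omega)]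
  · unfold G
    rw [if_pos (by omega), show m + 2 - 1 - (m + 1) = 0 by omega, pow_zero, one_mul,
      finsetSum_coeff, Finset.mul_sum]
    symm
    refine Finset.sum_of_injOn (fun j => 2 * j + 1) ?_ ?_ ?_ ?_
    · intro a _ b _ hab
      simp only at hab; omega
    · intro j hj
      simp only [coe_filter, Set.mem_ofPred_eq, mem_range, coe_Ico, Set.mem_Ico] at hj ⊢
      omega
    · intro k hk hk'
      rw [mem_Ico] at hk
      have hodd : k % 2 = 0 := by
        by_contra hne
        apply hk'
        refine ⟨k / 2, ?_, ?_⟩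
        · simp only [coe_filter, Set.mem_ofPred_eq, mem_range]
          omega
        · simp only; omega
      rw [coeff_C_mul, odd_zero m _ _ (by omega) (by omega), mul_zero]
    · intro j hj
      simp only [mem_filter, mem_range] at hj
      rw [coeff_C_mul, show 2 * j + 1 + (m + 1) - (m + 2) = 2 * j by omega,
        show 2 * m + 1 + (m + 2) - 1 - (m + 1) - (2 * j + 1) = 2 * (m - j) by omega]
      unfold go
      rw [show (2 * j + 1) / 2 = j by omega, key hSz m j (by omega)]
  · unfold G
    rw [if_pos (by omega), show m + 1 - 1 - m = 0 by omega, pow_zero, one_mul,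
      finsetSum_coeff, Finset.mul_sum]
    symm
    refine Finset.sum_of_injOn (fun j => 2 * j + 1) ?_ ?_ ?_ ?_
    · intro a _ b _ hab
      simp only at hab; omega
    · intro j hj
      simp only [coe_filter, Set.mem_ofPred_eq, mem_range, coe_Ico, Set.mem_Ico] at hj ⊢
      omega
    · intro k hk hk'
      rw [mem_Ico] at hk
      have hodd : k % 2 = 0 := by
        by_contra hne
        apply hk'
        refine ⟨k / 2, ?_, ?_⟩
        · simp only [coe_filter, Set.mem_ofPred_eq, mem_range]
          omega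
        · simp only; omega
      rw [coeff_C_mul, odd_zero m _ _ (by omega) (by omega), mul_zero]
    · intro j hj
      simp only [mem_filter, mem_range] at hj
      rw [coeff_C_mul, show 2 * j + 1 + m - (m + 1) = 2 * j by omega,
        show 2 * m + 1 + (m + 1) - 1 - m - (2 * j + 1) = 2 * (m - j) by omega]
      unfold go
      rw [show (2 * j + 1) / 2 = j by omega, key hSz m j (by omega)]
  · unfold G
    rw [if_neg (by omega), show m + 1 - (m + 1) = 0 by omega, pow_zero, one_mul,
      finsetSum_coeff, Finset.mul_sum]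
    symm
    refine Finset.sum_of_injOn (fun j => 2 * j) ?_ ?_ ?_ ?_
    · intro a _ b _ hab
      simp only at hab; omega
    · intro j hj
      simp only [coe_filter, Set.mem_ofPred_eq, mem_range, coe_range, Set.mem_Iio] at hj ⊢
      omega
    · intro k hk hk'
      rw [mem_range] at hk
      have hodd : k % 2 = 1 := by
        by_contra hne
        apply hk'
        refine ⟨k / 2, ?_, ?_⟩
        · simp only [coe_filter, Set.mem_ofPred_eq, mem_range]
          omega
        · simp only; omega
      rw [coeff_C_mul, odd_zero m _ _ (by omega) (by omega), mul_zero]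
    · intro j hj
      simp only [mem_filter, mem_range] at hj
      rw [coeff_C_mul, show 2 * j + 0 = 2 * j by omega,
        show 2 * m + 1 - 1 - 2 * j - 0 = 2 * (m - j) by omega]
      unfold go
      rw [show (2 * j) / 2 = j by omega, key hSz m j (by omega)]

end Pool.Agent.Helper923.KnightVO
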